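import Pool.Agent.H17.QR1

namespace Pool.Agent.Results.MP_ca0b96_co.QRado
open Pool.Agent.H17.QR

theorem result (K V : Type) [Field K] [AddCommGroup V] [Module K V] [FiniteDimensional K V]
    (r : Submodule K V → ℕ) (h : IsQMatroid r) (n : ℕ) (X : Fin n → Submodule K V) :
    (∃ T : Submodule K V, IsQTransversal X T ∧ Indep r T) ↔
      ∀ J : Finset (Fin n), nbar r (⨅ j ∈ J, X j) + J.card ≤ nbar r ⊤ :=
  main h X

end Pool.Agent.Results.MP_ca0b96_co.QRado
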